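import Pool.Agent.Helper492_FJ.Mat

/-!
# Linear groups modulo finitary linear groups

`C` is any class of groups with the closure properties `ClosedE C`, all of which are known for the
class of the groups that satisfy the Farrell-Jones conjecture with coefficients in additive categories
and finite wreath products.

(1) Let `ρ : G → Aˣ` be a homomorphism to the units of a ring, and let `𝓔` be a set of idempotents of
`A` which is directed and such that for `e` in `𝓔` each conjugate of `e` by an element `ρ g` lies in the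
corner `f A f` for some `f` in `𝓔`. Suppose that `GL₂(e A e)` is in `C` for all `e` in `𝓔`. If `N` is a
normal subgroup of `G` with `G ⧸ N` in `C` such that `ρ` is injective on `N` and each `ρ n - 1`, `n ∈ N`,
lies in a corner `e A e` with `e` in `𝓔`, then `G` is in `C`.

(2) Let `K` be a division ring such that all `GL_n(K)` are in `C` and `V` any vector space over `K`. A
group `G` which acts linearly on `V` is in `C` if it has a normal subgroup `N` with `G ⧸ N` in `C` which
acts faithfully and by automorphisms `1 + a` with `a` of finite rank.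

(3) Let `R` be any ring such that all `GL_n(R)` are in `C`. A group `G` which acts by row- and
column-finite matrices over `R`, indexed by any set `X`, is in `C` if it has a normal subgroup `N` with
`G ⧸ N` in `C` which acts faithfully and by matrices that differ from the identity matrix in finitely
many entries only.

The group `N` may be any such subgroup, and `G` is not assumed to contain more of the finitary group.

Outline of the proof. Let `E` be a finite subset of `N` and `g ∈ G`, choose `e` for `E`, and put
`u = ρ g`. If `e` and `u e u⁻¹` lie in `f A f` then the complements of `e` and of `u e u⁻¹` in the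
idempotent `diag(f, f)` of the ring of `2 × 2`-matrices are isomorphic, the isomorphism from `e` to
`u e u⁻¹` given by `u` extends to an element of `GL₂(f A f)`, and the conjugation by this element
realizes the conjugation by `g` on `E`. So the criterion `MP_490288_al.RealizationCriterion` applies.
-/

set_option autoImplicit false

namespace Pool.Agent.Results.MP_5d3e93_al.FinitaryKernels

open Pool.Agent.Y110.FJ Pool.Agent.Helper492_FJ

/-- all general linear groups over `R` are in the class -/
def AllGL (C : ∀ (G : Type) [Group G], Prop) (R : Type) [Ring R] : Prop :=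
  ∀ n : ℕ, C ((Fin n → R) ≃ₗ[R] (Fin n → R))

/-- `GL₂(e A e)` is in the class -/
def GL2 (C : ∀ (G : Type) [Group G], Prop) {A : Type} [Ring A] (e : A) : Prop :=
  ∀ he : IsIdempotentElem e, C (Matrix (Fin 2) (Fin 2) he.Corner)ˣ

section defs

variable {G : Type} [Group G]

/-- `𝓔` is a directed set of idempotents, and for `e` in `𝓔` the conjugates of `e` by elements of `G` lie in
corners `f A f` with `f` in `𝓔` -/
structure System {A : Type} [Ring A] (ρ : G →* Aˣ) (𝓔 : Set A) : Prop where
  idem : ∀ e ∈ 𝓔, IsIdempotentElem e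
  dir : ∀ e ∈ 𝓔, ∀ e' ∈ 𝓔, ∃ f ∈ 𝓔, InCorner f e ∧ InCorner f e'
  conj : ∀ g : G, ∀ e ∈ 𝓔, ∃ f ∈ 𝓔, InCorner f ((ρ g).val * e * (ρ g)⁻¹.val)

/-- `n` acts by `1 + a`, `a` of finite rank -/
def FiniteRank {K V : Type} [DivisionRing K] [AddCommGroup V] [Module K V] (ρ : G →* (V ≃ₗ[K] V))
    (n : G) : Prop := FiniteDimensional K (LinearMap.range ((ρ n : V →ₗ[K] V) - LinearMap.id))

/-- `g` acts by a row-finite matrix (it is column-finite anyway) -/
def RowFinite {R X : Type} [Ring R] (ρ : G →* ((X →₀ R) ≃ₗ[R] (X →₀ R))) (g : G) : Prop :=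
  ∀ x : X, {y : X | ρ g (Finsupp.single y 1) x ≠ 0}.Finite

/-- `n` fixes all but finitely many vectors of the standard basis -/
def Finitary {R X : Type} [Ring R] (ρ : G →* ((X →₀ R) ≃ₗ[R] (X →₀ R))) (n : G) : Prop :=
  {y : X | ρ n (Finsupp.single y 1) ≠ Finsupp.single y 1}.Finite

end defs

/-- the case of the units of a ring -/
def Case1 (C : ∀ (G : Type) [Group G], Prop) (G : Type) [Group G] (N : Subgroup G) : Prop :=
  ∀ (A : Type) [Ring A] (ρ : G →* Aˣ) (𝓔 : Set A), System ρ 𝓔 → (∀ e ∈ 𝓔, GL2 C e) →
    (∀ n ∈ N, ρ n = 1 → n = 1) → (∀ n ∈ N, ∃ e ∈ 𝓔, InCorner e ((ρ n).val - 1)) → C G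

/-- the case of vector spaces -/
def Case2 (C : ∀ (G : Type) [Group G], Prop) (G : Type) [Group G] (N : Subgroup G) : Prop :=
  ∀ (K V : Type) [DivisionRing K] [AddCommGroup V] [Module K V] (ρ : G →* (V ≃ₗ[K] V)),
    AllGL C K → (∀ n ∈ N, ρ n = 1 → n = 1) → (∀ n ∈ N, FiniteRank ρ n) → C G

/-- the case of matrices over a ring -/
def Case3 (C : ∀ (G : Type) [Group G], Prop) (G : Type) [Group G] (N : Subgroup G) : Prop :=
  ∀ (R X : Type) [Ring R] (ρ : G →* ((X →₀ R) ≃ₗ[R] (X →₀ R))),
    AllGL C R → (∀ g, RowFinite ρ g) → (∀ n ∈ N, ρ n = 1 → n = 1) → (∀ n ∈ N, Finitary ρ n) → C G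

theorem result (C : ∀ (G : Type) [Group G], Prop) (hC : ClosedE C)
    (G : Type) [Group G] (N : Subgroup G) [N.Normal] (hQ : C (G ⧸ N)) :
    Case1 C G N ∧ Case2 C G N ∧ Case3 C G N :=
  ⟨fun _ _ ρ 𝓔 h hGL hinj hN => main hC 𝓔 h.idem h.dir (fun e he h' => hGL e h' he) ρ h.conj N hQ
      hinj hN,
    fun _ _ _ _ _ ρ hK hinj hN => main_vs hC hK ρ N hQ hinj hN,
    fun _ _ _ ρ hR hrow hinj hN => main_mat hC hR ρ hrow N hQ hinj hN⟩

end Pool.Agent.Results.MP_5d3e93_al.FinitaryKernels
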