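import Pool.Agent.H651_Nov.PrfLH
import Pool.Agent.H651_Nov.PrfSK
import Pool.Agent.R615.KU.DetK

/-!
Extensions whose kernel has little rational homology, and extensions which split on rational
homology, in the class of the groups with injective rational assembly maps in algebraic `K`-theory,
for an arbitrary coefficient ring.

`R` is any ring, and `rat (kgr R)` is the functor `G ↦ ℚ ⊗ K₁(R[G])`. The class `𝒦_R` is the class
of the groups `G` with `Det (rat (kgr R)) G` (the class of `MP_5d3e93_al.ClosureProperties`, which is
denoted by `DetK R G` there): for every group `T` and every family of transformations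
`α_{j,i} : H_j(G; ℚ) → ℚ ⊗ K₁(R[G × T])`, `i ∈ I_j`, natural in the group `G`, such that the
`α_{j,i}`, `i ∈ I_j`, are linearly independent on `ℤ^j` for each `j`, the sum of all the `α_{j,i}`
is injective on `G`.

(1) `SmallKernels`, `VirtuallyFreeHomology`: let `N` be a normal subgroup of `G` with
`H_q(N; ℚ) = 0` for all `q ≥ 2`; for instance, `N` free, virtually free, locally free, a knot
group, or `ℚ`-acyclic. Then `H_n(G; ℚ) → H_n(G / [N, N]; ℚ)` is injective for all `n`, and if
`G / [N, N]` is in `𝒦_R` then `G` is in `𝒦_R`.

(2) `TruncatedKernels`: more generally, let `f : G₁ → G₂` be a homomorphism over a group `Γ`, with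
`G₁ → Γ` and `G₂ → Γ` surjective with kernels `N₁` and `N₂`, and let `k` be such that
`H_q(N₁; ℚ) → H_q(N₂; ℚ)` is bijective for `q ≤ k` and `H_q(N₁; ℚ) = 0` for `q > k`. Then
`H_n(G₁; ℚ) → H_n(G₂; ℚ)` is injective for all `n`, and if `G₂` is in `𝒦_R` then `G₁` is in `𝒦_R`.

(3) `SymmetricActions`: let `F` be free on the set `V` (finite or infinite) and let `H` act on `F`
by automorphisms, such that `H` permutes the basis `V` modulo `[F, F]`. If the pointwise stabilizers
in `H` of the finite subsets of `V` are in `𝒦_R` then `F ⋊ H` is in `𝒦_R`.

(4) `SplitExtensions`: let `N` be a normal subgroup of `G` and let `ψ : G → K` be a homomorphism to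
any group such that `H_q(N; ℚ) → H_q(K; ℚ)` is injective for all `q`. Then
`H_n(G; ℚ) → H_n(G / N × K; ℚ)` is injective for all `n`, and if `G / N` and `K` are in `𝒦_R` then
`G` is in `𝒦_R`.

(5) `GraphProductHomology`, `GraphProductExtensions`: let `N` be a graph product of groups `P v`.
The map from `H_n(N; ℚ)` to `H_n(D; ℚ)` is injective for all `n`, where `D` is the restricted direct
product of the `P v`. If `N` is a normal subgroup of `G`, the canonical homomorphism `N → D` extends
to `G`, and `G / N` and all `P v` are in `𝒦_R`, then `G` is in `𝒦_R`.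

(6) `GraphProductActions`: let `H` act on a graph product `N` by arbitrary automorphisms such that a
subgroup `H₀` of finite index in `H`, itself in `𝒦_R`, preserves the homomorphisms `N → P v`. If the
`P v` are in `𝒦_R` then `N ⋊ H` is in `𝒦_R`.

(7) `ArtinActions`: if `A` is a right-angled Artin group and `H` in `𝒦_R` acts on `A` by
automorphisms which are trivial on `A / [A, A]`, then `A ⋊ H` is in `𝒦_R`.

The maps on homology in (1), (2), (4) and (5) do not depend on the functor; so for every single
natural family, injectivity on the target implies injectivity on the source.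
-/

namespace Pool.Agent.Results.MP_5d3e93_al.RelativeKernels

open Pool.Agent.Y483.PW Pool.Agent.Y477.IW Pool.Agent.R615.KU Pool.Agent.R615.K1
  Pool.Agent.H651.Nov

theorem result (R : Type) [Ring R] :
    (SmallKernels (rat (kgr R)) ∧ VirtuallyFreeHomology) ∧ TruncatedKernels (rat (kgr R)) ∧
      SymmetricActions (rat (kgr R)) ∧ SplitExtensions (rat (kgr R)) ∧
      (GraphProductHomology ∧ GraphProductExtensions (rat (kgr R))) ∧
      GraphProductActions (rat (kgr R)) ∧ ArtinActions (rat (kgr R)) :=
  have hE : HasPT (rat (kgr R)) := hasPT_rat (hasPTI_kgr R)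
  ⟨⟨smallKernels, virtuallyFreeHomology⟩, truncatedKernels, symmetricActions hE, splitExtensions,
    ⟨graphProductHomology, graphProductExtensions hE⟩, graphProductActions hE, artinActions hE⟩

end Pool.Agent.Results.MP_5d3e93_al.RelativeKernels
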